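import Pool.Agent.BES.Stmts

/-!
# Squad BES, row PWK (helper3): the weak Laplacian of `g(|x|²) Hf μ`
-/

set_option autoImplicit false

namespace Pool.Agent.BES.H3

open Set Filter Topology MeasureTheory
open scoped InnerProductSpace ENNReal
open Pool.Agent.BE01 Pool.Agent.BES

noncomputable section

abbrev Sm (f : En 2 → ℝ) : Prop := ContDiff ℝ ((⊤ : ℕ∞) : WithTop ℕ∞) f

theorem grad_inner {f : En 2 → ℝ} (x w : En 2) : ⟪gradient f x, w⟫_ℝ = fderiv ℝ f x w := by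
  unfold gradient
  rw [InnerProductSpace.toDual_symm_apply]

theorem rad_hasFDeriv {g : ℝ → ℝ} (hg : ContDiff ℝ ((⊤ : ℕ∞) : WithTop ℕ∞) g) (x : En 2) :
    HasFDerivAt (fun y : En 2 => g (‖y‖ ^ 2)) (deriv g (‖x‖ ^ 2) • (2 • innerSL ℝ x)) x := by
  have h1 : HasDerivAt g (deriv g (‖x‖ ^ 2)) (‖x‖ ^ 2) :=
    ((hg.differentiable (by simp)) _).hasDerivAt
  exact h1.comp_hasFDerivAt x (hasStrictFDerivAt_norm_sq x).hasFDerivAt

theorem rad_fderiv {g : ℝ → ℝ} (hg : ContDiff ℝ ((⊤ : ℕ∞) : WithTop ℕ∞) g) (x w : En 2) :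
    fderiv ℝ (fun y : En 2 => g (‖y‖ ^ 2)) x w = 2 * deriv g (‖x‖ ^ 2) * ⟪x, w⟫_ℝ := by
  rw [(rad_hasFDeriv hg x).fderiv]
  simp only [_root_.smul_apply, innerSL_apply_apply, smul_eq_mul, nsmul_eq_mul]
  push_cast
  ring

theorem rad_smooth {g : ℝ → ℝ} (hg : ContDiff ℝ ((⊤ : ℕ∞) : WithTop ℕ∞) g) :
    Sm (fun y : En 2 => g (‖y‖ ^ 2)) := hg.comp (contDiff_norm_sq ℝ)

theorem deriv_smooth {g : ℝ → ℝ} (hg : ContDiff ℝ ((⊤ : ℕ∞) : WithTop ℕ∞) g) :
    ContDiff ℝ ((⊤ : ℕ∞) : WithTop ℕ∞) (deriv g) :=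
  (contDiff_infty_iff_deriv.1 hg).2

/-- functions continuous on `Ω`, zero outside of a compact subset -/
theorem cont_ext {v : En 2 → ℝ} {Ω K : Set (En 2)} (hΩ : IsOpen Ω) (hK : IsCompact K)
    (hKΩ : K ⊆ Ω) (hv : ContinuousOn v Ω) (h0 : ∀ x, x ∉ K → v x = 0) :
    Continuous v ∧ HasCompactSupport v := by
  refine ⟨?_, HasCompactSupport.intro hK fun x hx => h0 x hx⟩
  rw [continuous_iff_continuousAt]
  intro x
  by_cases hx : x ∈ Ω
  · exact hv.continuousAt (hΩ.mem_nhds hx)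
  · have h1 : Kᶜ ∈ 𝓝 x := hK.isClosed.isOpen_compl.mem_nhds fun h => hx (hKΩ h)
    have h2 : (fun _ => (0 : ℝ)) =ᶠ[𝓝 x] v := by
      filter_upwards [h1] with y hy
      exact (h0 y hy).symm
    exact continuousAt_const.congr h2

/-- a test function times a function smooth on `Ω` is a smooth function -/
theorem mul_smooth {ψ f : En 2 → ℝ} {Ω : Set (En 2)} (hΩ : IsOpen Ω) (hψ : Tst Ω ψ)
    (hf : ContDiffOn ℝ ((⊤ : ℕ∞) : WithTop ℕ∞) f Ω) : Tst Ω (fun x => ψ x * f x) := by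
  have hs : tsupport (fun x => ψ x * f x) ⊆ tsupport ψ := tsupport_mul_subset_left
  refine ⟨?_, hψ.2.1.mul_right, hs.trans hψ.2.2⟩
  rw [contDiff_iff_contDiffAt]
  intro x
  by_cases hx : x ∈ Ω
  · exact hψ.1.contDiffAt.mul (hf.contDiffAt (hΩ.mem_nhds hx))
  · have h1 : (tsupport ψ)ᶜ ∈ 𝓝 x :=
      (isClosed_tsupport ψ).isOpen_compl.mem_nhds fun h => hx (hψ.2.2 h)
    have h2 : (fun x => ψ x * f x) =ᶠ[𝓝 x] fun _ => (0 : ℝ) := by
      filter_upwards [h1] with y hy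
      rw [image_eq_zero_of_notMem_tsupport hy, zero_mul]
    exact (contDiffAt_const (c := (0 : ℝ))).congr_of_eventuallyEq h2

theorem fderiv_zero_of {ψ : En 2 → ℝ} {x : En 2} (hx : x ∉ tsupport ψ) : fderiv ℝ ψ x = 0 := by
  have h2 : x ∉ tsupport (fderiv ℝ ψ) := fun h3 => hx (tsupport_fderiv_subset ℝ h3)
  exact image_eq_zero_of_notMem_tsupport h2

theorem gradient_zero_of {ψ : En 2 → ℝ} {x : En 2} (hx : x ∉ tsupport ψ) : gradient ψ x = 0 := by
  rw [gradient, fderiv_zero_of hx, map_zero]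

/-- the divergence theorem for `u(x) x` -/
theorem euler_int {u : En 2 → ℝ} (hu : Sm u) (hc : HasCompactSupport u) :
    Integrable (fun x => fderiv ℝ u x x + 2 * u x) ∧ ∫ x, (fderiv ℝ u x x + 2 * u x) = 0 := by
  set e := EuclideanSpace.basisFun (Fin 2) ℝ with he
  have hud : Differentiable ℝ u := hu.differentiable (by simp)
  have huc : Continuous (fderiv ℝ u) := hu.continuous_fderiv (by simp)
  have hcf : HasCompactSupport (fderiv ℝ u) := hc.fderiv (𝕜 := ℝ)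
  have hl : ∀ i (x : En 2), HasFDerivAt (fun z : En 2 => ⟪e i, z⟫_ℝ) (innerSL ℝ (e i)) x :=
    fun i x => (innerSL ℝ (e i)).hasFDerivAt
  have i1 : ∀ i, Integrable (fun x : En 2 => fderiv ℝ u x (e i) * ⟪e i, x⟫_ℝ) := by
    intro i
    apply Continuous.integrable_of_hasCompactSupport
    · exact (huc.clm_apply continuous_const).mul (continuous_const.inner continuous_id)
    · exact (hcf.comp_left (g := fun L : En 2 →L[ℝ] ℝ => L (e i)) (by simp)).mul_right
  have i3 : ∀ i, Integrable (fun x : En 2 => u x * ⟪e i, x⟫_ℝ) := by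
    intro i
    apply Continuous.integrable_of_hasCompactSupport
    · exact hu.continuous.mul (continuous_const.inner continuous_id)
    · exact hc.mul_right
  have hf : ∀ i (x : En 2), fderiv ℝ (fun z : En 2 => ⟪e i, z⟫_ℝ) x (e i) = 1 := by
    intro i x
    rw [(hl i x).fderiv, innerSL_apply_apply, real_inner_self_eq_norm_sq, e.norm_eq_one]
    norm_num
  have i2' : Integrable u := hu.continuous.integrable_of_hasCompactSupport hc
  have i2 : ∀ i, Integrable (fun x : En 2 => u x * fderiv ℝ (fun z : En 2 => ⟪e i, z⟫_ℝ) x (e i)) := by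
    intro i
    simp only [hf, mul_one]
    exact i2'
  have h1 : ∀ i, ∫ x : En 2, fderiv ℝ u x (e i) * ⟪e i, x⟫_ℝ = - ∫ x, u x := by
    intro i
    have h2 := integral_mul_fderiv_eq_neg_fderiv_mul_of_integrable (i1 i) (i2 i) (i3 i)
      (fun z _ => hud z) (fun z _ => (hl i z).differentiableAt)
    simp only [hf, mul_one] at h2
    rw [h2, neg_neg]
  have h3 : ∀ x : En 2, fderiv ℝ u x x = ∑ i, fderiv ℝ u x (e i) * ⟪e i, x⟫_ℝ := by
    intro x
    have h4 : x = ∑ i, ⟪e i, x⟫_ℝ • e i := (e.sum_repr' x).symm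
    conv_lhs => rw [h4]
    rw [map_sum]
    refine Finset.sum_congr rfl fun i _ => ?_
    rw [← h4, map_smul, smul_eq_mul, mul_comm]
  have i4 : Integrable (fun x : En 2 => fderiv ℝ u x x) := by
    have h5 : (fun x : En 2 => fderiv ℝ u x x) =
        fun x => ∑ i, fderiv ℝ u x (e i) * ⟪e i, x⟫_ℝ := funext h3
    rw [h5]
    exact integrable_finsetSum _ fun i _ => i1 i
  refine ⟨i4.add (i2'.const_mul 2), ?_⟩
  rw [integral_add i4 (i2'.const_mul 2), integral_const_mul]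
  simp_rw [h3]
  rw [integral_finsetSum _ (fun i _ => i1 i)]
  simp only [h1, Fin.sum_univ_two]
  ring

theorem pwk (hsm : HsmStmt) (hwk : HwkStmt) : PwkStmt := by
  intro μ g Ω ψ hg hΩ hS hψ
  obtain ⟨-, hH, hE⟩ := hsm μ
  have hHΩ : ContDiffOn ℝ ((⊤ : ℕ∞) : WithTop ℕ∞) (Hf μ) Ω := hH.mono hS
  have hg' := deriv_smooth hg
  set G : En 2 → ℝ := fun y => g (‖y‖ ^ 2) with hG
  set K : En 2 → ℝ := fun y => deriv g (‖y‖ ^ 2) with hK
  have hGs : Sm G := rad_smooth hg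
  have hKs : Sm K := rad_smooth hg'
  -- the two test functions
  set φ : En 2 → ℝ := fun x => ψ x * G x with hφ
  have hφT : Tst Ω φ := mul_smooth hΩ hψ hGs.contDiffOn
  set f : En 2 → ℝ := fun x => 2 * (K x * Hf μ x) with hf
  have hfs : ContDiffOn ℝ ((⊤ : ℕ∞) : WithTop ℕ∞) f Ω :=
    contDiffOn_const.mul (hKs.contDiffOn.mul hHΩ)
  set u : En 2 → ℝ := fun x => ψ x * f x with hu
  have huT : Tst Ω u := mul_smooth hΩ hψ hfs
  have hA := hwk μ Ω φ hΩ hS hφT
  obtain ⟨hBi, hB⟩ := euler_int huT.1 huT.2.1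
  -- differentiability
  have dH : ∀ x ∈ Ω, DifferentiableAt ℝ (Hf μ) x := fun x hx =>
    (hHΩ.contDiffAt (hΩ.mem_nhds hx)).differentiableAt (by simp)
  have dψ : ∀ x, DifferentiableAt ℝ ψ x := fun x => (hψ.1.differentiable (by simp)) x
  have dG : ∀ x, DifferentiableAt ℝ G x := fun x => (hGs.differentiable (by simp)) x
  have dK : ∀ x, DifferentiableAt ℝ K x := fun x => (hKs.differentiable (by simp)) x
  -- pointwise identities on Ω
  have p1 : ∀ x ∈ Ω, ⟪gradient ψ x, gradient (fun y => g (‖y‖ ^ 2) * Hf μ y) x⟫_ℝ =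
      G x * ⟪gradient ψ x, gradient (Hf μ) x⟫_ℝ + 2 * K x * Hf μ x * ⟪gradient ψ x, x⟫_ℝ := by
    intro x hx
    rw [real_inner_comm, grad_inner]
    have h1 : HasFDerivAt (fun y => g (‖y‖ ^ 2) * Hf μ y)
        (G x • fderiv ℝ (Hf μ) x + Hf μ x • fderiv ℝ G x) x :=
      (dG x).hasFDerivAt.mul (dH x hx).hasFDerivAt
    rw [h1.fderiv]
    simp only [_root_.add_apply, _root_.smul_apply, smul_eq_mul]
    rw [← grad_inner, rad_fderiv hg, real_inner_comm, real_inner_comm x]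
    simp only [hK]
    ring
  have p2 : ∀ x ∈ Ω, ⟪gradient φ x, gradient (Hf μ) x⟫_ℝ =
      G x * ⟪gradient ψ x, gradient (Hf μ) x⟫_ℝ + ψ x * (2 * K x * (μ * Hf μ x)) := by
    intro x hx
    rw [grad_inner]
    have h1 : HasFDerivAt φ (ψ x • fderiv ℝ G x + G x • fderiv ℝ ψ x) x :=
      (dψ x).hasFDerivAt.mul (dG x).hasFDerivAt
    rw [h1.fderiv]
    simp only [_root_.add_apply, _root_.smul_apply, smul_eq_mul]
    rw [rad_fderiv hg, (hE x (hS hx)).1, ← grad_inner]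
    simp only [hK]
    ring
  have p3 : ∀ x ∈ Ω, fderiv ℝ u x x = 2 * K x * Hf μ x * ⟪gradient ψ x, x⟫_ℝ +
      ψ x * (2 * (K x * (μ * Hf μ x) +
        Hf μ x * (2 * deriv (deriv g) (‖x‖ ^ 2) * ‖x‖ ^ 2))) := by
    intro x hx
    have h0 : HasFDerivAt f ((2 : ℝ) • (K x • fderiv ℝ (Hf μ) x + Hf μ x • fderiv ℝ K x)) x :=
      ((dK x).hasFDerivAt.mul (dH x hx).hasFDerivAt).const_mul 2
    have h1 : HasFDerivAt u (ψ x • ((2 : ℝ) • (K x • fderiv ℝ (Hf μ) x + Hf μ x • fderiv ℝ K x)) +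
        f x • fderiv ℝ ψ x) x := (dψ x).hasFDerivAt.mul h0
    rw [h1.fderiv]
    simp only [_root_.add_apply, _root_.smul_apply, smul_eq_mul]
    have h2 : fderiv ℝ (Hf μ) x x = μ * Hf μ x := by
      rw [← grad_inner, real_inner_comm, (hE x (hS hx)).1]
    rw [h2, rad_fderiv hg', ← grad_inner, real_inner_self_eq_norm_sq]
    simp only [hf]
    ring
  -- the identity
  have key : ∀ x ∈ Ω, ⟪gradient ψ x, gradient (fun y => g (‖y‖ ^ 2) * Hf μ y) x⟫_ℝ =
      ⟪gradient φ x, gradient (Hf μ) x⟫_ℝ + (fderiv ℝ u x x + 2 * u x) -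
        ψ x * (Lg μ 0 g (‖x‖ ^ 2) * Hf μ x) := by
    intro x hx
    rw [p1 x hx, p2 x hx, p3 x hx]
    simp only [hu, hf, hK, Lg]
    ring
  have hmeas : MeasurableSet Ω := hΩ.measurableSet
  have hae : ∀ᵐ x ∂(mu Ω), x ∈ Ω := ae_restrict_mem hmeas
  -- integrability
  have cH : ContinuousOn (gradient (Hf μ)) Ω := by
    have h1 : ContinuousOn (fderiv ℝ (Hf μ)) Ω :=
      hHΩ.continuousOn_fderiv_of_isOpen hΩ (by simp)
    exact (LinearIsometryEquiv.continuous _).comp_continuousOn h1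
  have iA : Integrable (fun x => ⟪gradient φ x, gradient (Hf μ) x⟫_ℝ) (mu Ω) := by
    have h1 : Continuous (gradient φ) :=
      (LinearIsometryEquiv.continuous _).comp (hφT.1.continuous_fderiv (by simp))
    obtain ⟨h2, h3⟩ := cont_ext (v := fun x => ⟪gradient φ x, gradient (Hf μ) x⟫_ℝ) hΩ
      hφT.2.1 hφT.2.2 (h1.continuousOn.inner cH) (fun x hx => by
        show ⟪gradient φ x, gradient (Hf μ) x⟫_ℝ = 0
        rw [gradient_zero_of hx, inner_zero_left])
    exact (h2.integrable_of_hasCompactSupport h3).mono_measure Measure.restrict_le_self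
  have iB : Integrable (fun x => fderiv ℝ u x x + 2 * u x) (mu Ω) :=
    hBi.mono_measure Measure.restrict_le_self
  have iC : Integrable (fun x => ψ x * (Lg μ 0 g (‖x‖ ^ 2) * Hf μ x)) (mu Ω) := by
    have h1 : Continuous (fun x : En 2 => Lg μ 0 g (‖x‖ ^ 2)) := by
      have c1 : Continuous (deriv (deriv g)) := (deriv_smooth hg').continuous
      have c2 : Continuous (deriv g) := hg'.continuous
      have c3 : Continuous g := hg.continuous
      have c4 : Continuous (fun x : En 2 => ‖x‖ ^ 2) := continuous_norm.pow 2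
      unfold Lg
      exact (((continuous_const.mul c4).mul (c1.comp c4)).add
        (continuous_const.mul (c2.comp c4))).add (continuous_const.mul (c3.comp c4))
    obtain ⟨h2, h3⟩ := cont_ext (v := fun x => ψ x * (Lg μ 0 g (‖x‖ ^ 2) * Hf μ x)) hΩ
      hψ.2.1 hψ.2.2 (hψ.1.continuous.continuousOn.mul (h1.continuousOn.mul hHΩ.continuousOn))
      (fun x hx => by
        show ψ x * _ = 0
        rw [image_eq_zero_of_notMem_tsupport hx, zero_mul])
    exact (h2.integrable_of_hasCompactSupport h3).mono_measure Measure.restrict_le_self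
  have hB' : ∫ x, (fderiv ℝ u x x + 2 * u x) ∂(mu Ω) = 0 := by
    rw [← hB]
    refine setIntegral_eq_integral_of_forall_compl_eq_zero fun x hx => ?_
    have h1 : x ∉ tsupport u := fun h => hx (huT.2.2 h)
    rw [fderiv_zero_of h1, image_eq_zero_of_notMem_tsupport h1]
    simp
  rw [integral_congr_ae (hae.mono fun x hx => key x hx)]
  have e1 : ∫ a, (⟪gradient φ a, gradient (Hf μ) a⟫_ℝ + (fderiv ℝ u a a + 2 * u a) -
      ψ a * (Lg μ 0 g (‖a‖ ^ 2) * Hf μ a)) ∂(mu Ω) =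
      (∫ a, (⟪gradient φ a, gradient (Hf μ) a⟫_ℝ + (fderiv ℝ u a a + 2 * u a)) ∂(mu Ω)) -
        ∫ a, ψ a * (Lg μ 0 g (‖a‖ ^ 2) * Hf μ a) ∂(mu Ω) := integral_sub (iA.add iB) iC
  rw [e1, integral_add iA iB, hA, hB', add_zero, zero_sub]

end

end Pool.Agent.BES.H3
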